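import Pool.Agent.Helper94.SY.St

/-!
# Project SY, module SW: cosets of Sylow `p`-subgroups are contained in lines
-/

set_option autoImplicit false

namespace Pool.Agent.Helper90.SY

open Pool.Agent.Helper94.SY Finset
open scoped Classical
open Pool.Agent.Helper1.PFS (G rmul)

section

variable {p : ℕ} [Fact p.Prime]

lemma rmul_mul (r : W p) (g h : G p) : rmul r (g * h) = rmul (rmul r g) h := by
  have e : ∀ i j, (g * h).1 i j = g.1 i 0 * h.1 0 j + g.1 i 1 * h.1 1 j := by
    intro i j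
    rw [Matrix.SpecialLinearGroup.coe_mul, Matrix.mul_apply, Fin.sum_univ_two]
  unfold rmul
  ext
  · simp only [e]; ring
  · simp only [e]; ring

lemma rmul_one (r : W p) : rmul r (1 : G p) = r := by
  unfold rmul
  ext
  · simp [Matrix.SpecialLinearGroup.coe_one]
  · simp [Matrix.SpecialLinearGroup.coe_one]

/-- the action of `P` on the rows through the conjugate `g P g⁻¹` -/
@[reducible] def act (g : G p) (P : Sylow p (G p)) : MulAction P (W p) where
  smul u r := rmul r (g * (u : G p)⁻¹ * g⁻¹)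
  one_smul r := by
    show rmul r (g * ((1 : P) : G p)⁻¹ * g⁻¹) = r
    have h1 : g * ((1 : P) : G p)⁻¹ * g⁻¹ = 1 := by
      rw [OneMemClass.coe_one, inv_one, mul_one, mul_inv_cancel]
    rw [h1, rmul_one]
  mul_smul u v r := by
    show rmul r (g * ((u * v : P) : G p)⁻¹ * g⁻¹) =
      rmul (rmul r (g * (v : G p)⁻¹ * g⁻¹)) (g * (u : G p)⁻¹ * g⁻¹)
    rw [← rmul_mul]
    congr 1
    rw [MulMemClass.coe_mul, mul_inv_rev]
    group

/-- a nonzero row fixed by `g P g⁻¹` -/
lemma exists_fixed (g : G p) (P : Sylow p (G p)) :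
    ∃ r : W p, r ≠ 0 ∧ ∀ u ∈ P, rmul r (g * u * g⁻¹) = r := by
  letI := act g P
  have hP : IsPGroup p P := P.isPGroup'
  have hc : p ∣ Nat.card (W p) := by
    have h1 : Nat.card (W p) = p * p := by
      show Nat.card (ZMod p × ZMod p) = p * p
      rw [Nat.card_prod, Nat.card_zmod]
    rw [h1]
    exact dvd_mul_right p p
  have h0 : (0 : W p) ∈ MulAction.fixedPoints P (W p) := by
    intro u
    show rmul 0 (g * (u : G p)⁻¹ * g⁻¹) = 0
    exact Pool.Agent.Helper1.PFS.rmul_zero' _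
  obtain ⟨b, hb, hne⟩ := hP.exists_fixed_point_of_prime_dvd_card_of_fixed_point (W p) hc h0
  refine ⟨b, fun h => hne h.symm, fun u hu => ?_⟩
  have h1 : rmul b (g * ((⟨u, hu⟩⁻¹ : P) : G p)⁻¹ * g⁻¹) = b := hb (⟨u, hu⟩⁻¹ : P)
  have h2 : ((⟨u, hu⟩⁻¹ : P) : G p)⁻¹ = u := by
    rw [InvMemClass.coe_inv, inv_inv]
  rw [h2] at h1
  exact h1

end

/-- SW. -/
theorem hSW : StSW := by
  intro p hp S g P
  obtain ⟨r, hr, hfix⟩ := exists_fixed g P
  refine ⟨r, hr, ?_⟩
  have hdl : dl S r (rmul r g) = ((S.filter fun h => rmul r h = rmul r g).card : ℝ) := by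
    unfold dl
    rw [Finset.card_filter]
    push_cast
    rfl
  rw [hdl]
  have hsub : {h | h ∈ (S : Set (G p)) ∧ g⁻¹ * h ∈ P} ⊆
      ((S.filter fun h => rmul r h = rmul r g : Finset (G p)) : Set (G p)) := by
    rintro h ⟨h1, h2⟩
    rw [Finset.mem_coe, Finset.mem_filter]
    refine ⟨h1, ?_⟩
    have h3 : h = (g * (g⁻¹ * h) * g⁻¹) * g := by group
    rw [h3, rmul_mul, hfix _ h2]
  have hle := Set.ncard_le_ncard hsub (Finset.finite_toSet _)
  rw [Set.ncard_coe_finset] at hle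
  exact_mod_cast hle

end Pool.Agent.Helper90.SY
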